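import Mathlib

set_option autoImplicit false
open MeasureTheory Set
open scoped ENNReal NNReal

namespace Pool.Agent.H796R2.TW

/-- All base 9 digits of `n` are divisible by four. -/
def D (n : ℕ) : Prop := ∀ k : ℕ, (n / 9 ^ k) % 9 % 4 = 0

theorem D_zero : D 0 := by intro k; simp

theorem D_step (n c : ℕ) (hc : c < 9) : D (9 * n + c) ↔ D n ∧ c % 4 = 0 := by
  constructor
  · intro h
    refine ⟨fun k => ?_, ?_⟩
    · have := h (k + 1)
      rw [pow_succ', ← Nat.div_div_eq_div_mul] at this
      have e : (9 * n + c) / 9 = n := by omega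
      rwa [e] at this
    · have := h 0
      simp only [pow_zero, Nat.div_one] at this
      have e : (9 * n + c) % 9 = c := by omega
      rwa [e] at this
  · rintro ⟨h1, h2⟩ k
    cases k with
    | zero =>
      simp only [pow_zero, Nat.div_one]
      have e : (9 * n + c) % 9 = c := by omega
      rw [e]; exact h2
    | succ k =>
      rw [pow_succ', ← Nat.div_div_eq_div_mul]
      have e : (9 * n + c) / 9 = n := by omega
      rw [e]
      exact h1 k

theorem D_div (n k : ℕ) (h : D n) : D (n / 9 ^ k) := by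
  intro j
  rw [Nat.div_div_eq_div_mul, ← pow_add]
  exact h _

noncomputable instance : DecidablePred D := fun _ => Classical.dec _

theorem card_nine (a b : ℕ) (hab : a ≤ b) :
    ((Finset.Ico (9 * a) (9 * b)).filter D).card = 3 * ((Finset.Ico a b).filter D).card := by
  induction b, hab using Nat.le_induction with
  | base => simp
  | succ b hab ih =>
    rw [Finset.card_filter] at ih ⊢
    rw [Finset.card_filter] at ih ⊢
    have e : 9 * (b + 1) = 9 * b + 8 + 1 := by ring
    have d0 : D (9 * b) ↔ D b := by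
      have := D_step b 0 (by norm_num)
      simpa using this
    have d1 : ¬ D (9 * b + 1) := fun h => by
      have := ((D_step b 1 (by norm_num)).1 h).2; omega
    have d2 : ¬ D (9 * b + 2) := fun h => by
      have := ((D_step b 2 (by norm_num)).1 h).2; omega
    have d3 : ¬ D (9 * b + 3) := fun h => by
      have := ((D_step b 3 (by norm_num)).1 h).2; omega
    have d4 : D (9 * b + 4) ↔ D b := by
      rw [D_step b 4 (by norm_num)]; simp
    have d5 : ¬ D (9 * b + 5) := fun h => by
      have := ((D_step b 5 (by norm_num)).1 h).2; omega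
    have d6 : ¬ D (9 * b + 6) := fun h => by
      have := ((D_step b 6 (by norm_num)).1 h).2; omega
    have d7 : ¬ D (9 * b + 7) := fun h => by
      have := ((D_step b 7 (by norm_num)).1 h).2; omega
    have d8 : D (9 * b + 8) ↔ D b := by
      rw [D_step b 8 (by norm_num)]; simp
    rw [e, Finset.sum_Ico_succ_top (by omega), Finset.sum_Ico_succ_top (by omega),
      Finset.sum_Ico_succ_top (by omega), Finset.sum_Ico_succ_top (by omega),
      Finset.sum_Ico_succ_top (by omega), Finset.sum_Ico_succ_top (by omega),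
      Finset.sum_Ico_succ_top (by omega), Finset.sum_Ico_succ_top (by omega),
      Finset.sum_Ico_succ_top (by omega), Finset.sum_Ico_succ_top (by omega), ih]
    rw [if_neg d1, if_neg d2, if_neg d3, if_neg d5, if_neg d6, if_neg d7]
    by_cases hb : D b
    · rw [if_pos (d0.2 hb), if_pos (d4.2 hb), if_pos (d8.2 hb), if_pos hb]
      ring
    · rw [if_neg (fun h => hb (d0.1 h)), if_neg (fun h => hb (d4.1 h)),
        if_neg (fun h => hb (d8.1 h)), if_neg hb]
      ring

theorem card_block (j a b : ℕ) (hab : a ≤ b) :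
    ((Finset.Ico (9 ^ j * a) (9 ^ j * b)).filter D).card = 3 ^ j * ((Finset.Ico a b).filter D).card := by
  induction j with
  | zero => simp
  | succ j ih =>
    have h1 := card_nine (9 ^ j * a) (9 ^ j * b) (Nat.mul_le_mul_left _ hab)
    rw [ih, ← mul_assoc, ← mul_assoc, ← pow_succ', ← mul_assoc, ← pow_succ'] at h1
    exact h1

/-- The set `E`. -/
def E : Set ℝ := {x | 0 ≤ x ∧ D ⌊x⌋₊}

theorem E_inter (a b : ℕ) (hab : a ≤ b) :
    E ∩ Ico (a : ℝ) b = ⋃ k ∈ (Finset.Ico a b).filter D, Ico (k : ℝ) (k + 1) := by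
  ext x
  simp only [E, mem_inter_iff, mem_ofPred_eq, mem_Ico, mem_iUnion, Finset.mem_filter, Finset.mem_Ico,
    exists_prop]
  constructor
  · rintro ⟨⟨h0, hD⟩, h1, h2⟩
    refine ⟨⌊x⌋₊, ⟨⟨Nat.le_floor h1, (Nat.floor_lt h0).2 h2⟩, hD⟩, Nat.floor_le h0,
      Nat.lt_floor_add_one x⟩
  · rintro ⟨k, ⟨⟨h1, h2⟩, hD⟩, h3, h4⟩
    have h0 : 0 ≤ x := le_trans (Nat.cast_nonneg k) h3
    have hk : ⌊x⌋₊ = k := by
      rw [Nat.floor_eq_iff h0]
      exact ⟨h3, h4⟩
    refine ⟨⟨h0, hk ▸ hD⟩, le_trans (by exact_mod_cast h1) h3, lt_of_lt_of_le h4 ?_⟩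
    exact_mod_cast h2

theorem E_meas : MeasurableSet E := by
  have h : E = Ici 0 ∩ (Nat.floor ⁻¹' {n | D n}) := by
    ext x; simp [E]
  rw [h]
  exact measurableSet_Ici.inter (Nat.measurable_floor (MeasurableSpace.measurableSet_top))

theorem E_vol (a b : ℕ) (hab : a ≤ b) :
    volume (E ∩ Ico (a : ℝ) b) = ((Finset.Ico a b).filter D).card := by
  rw [E_inter a b hab, measure_biUnion_finset]
  · simp
  · intro i _ j _ hij
    have h : Disjoint (Ico (i : ℝ) (i + 1)) (Ico (j : ℝ) (j + 1)) := by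
      rw [Set.disjoint_left]
      intro x hx hx'
      rcases lt_or_gt_of_ne hij with h | h
      · have : (i : ℝ) + 1 ≤ j := by exact_mod_cast h
        linarith [hx.2, hx'.1]
      · have : (j : ℝ) + 1 ≤ i := by exact_mod_cast h
        linarith [hx.1, hx'.2]
    exact h
  · intro i _; exact measurableSet_Ico

theorem E_block (j n : ℕ) (hn : D n) :
    volume (E ∩ Ico ((9 : ℝ) ^ j * n) (9 ^ j * (n + 1))) = 3 ^ j := by
  have h := E_vol (9 ^ j * n) (9 ^ j * (n + 1)) (Nat.mul_le_mul_left _ (Nat.le_succ n))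
  rw [card_block j n (n + 1) (Nat.le_succ n)] at h
  have h1 : (Finset.Ico n (n + 1)).filter D = {n} := by
    ext x
    simp only [Finset.mem_filter, Finset.mem_Ico, Finset.mem_singleton]
    constructor
    · rintro ⟨h, _⟩; omega
    · rintro rfl; exact ⟨by omega, hn⟩
  rw [h1] at h
  push_cast at h
  simpa using h

theorem E_block2_le (j n : ℕ) :
    volume (E ∩ Ico ((9 : ℝ) ^ j * n) (9 ^ j * (n + 2))) ≤ 2 * 3 ^ j := by
  have h := E_vol (9 ^ j * n) (9 ^ j * (n + 2)) (Nat.mul_le_mul_left _ (Nat.le_add_right n 2))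
  rw [card_block j n (n + 2) (Nat.le_add_right n 2)] at h
  have h1 : ((Finset.Ico n (n + 2)).filter D).card ≤ 2 := by
    refine (Finset.card_filter_le _ _).trans ?_
    simp
  push_cast at h
  rw [h, mul_comm]
  gcongr
  exact_mod_cast h1

/-- measure of `E` in an interval -/
theorem E_Icc_le (a b : ℝ) (hab : a < b) :
    volume (E ∩ Icc a b) ≤ ENNReal.ofReal (6 * Real.sqrt (b - a)) := by
  have hh : 0 < b - a := by linarith
  rcases le_or_gt (b - a) 1 with h1 | h1
  · have h2 : volume (E ∩ Icc a b) ≤ ENNReal.ofReal (b - a) := by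
      refine (measure_mono inter_subset_right).trans ?_
      rw [Real.volume_Icc]
    refine h2.trans (ENNReal.ofReal_le_ofReal ?_)
    have h3 : b - a ≤ Real.sqrt (b - a) := by
      have := Real.sqrt_nonneg (b - a)
      have h4 := Real.sq_sqrt hh.le
      have h5 : Real.sqrt (b - a) ≤ 1 := by
        rw [Real.sqrt_le_one]; exact h1
      nlinarith
    have := Real.sqrt_nonneg (b - a)
    linarith
  · -- choose j
    obtain ⟨j, hj1, hj2⟩ := exists_nat_pow_near h1.le (by norm_num : (1:ℝ) < 9)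
    have hp : (0:ℝ) < 9 ^ (j + 1) := by positivity
    set n := ⌊(max a 0) / 9 ^ (j + 1)⌋₊ with hn
    have hm0 : 0 ≤ max a 0 / 9 ^ (j + 1) := by positivity
    have hf1 : (n : ℝ) ≤ max a 0 / 9 ^ (j + 1) := Nat.floor_le hm0
    have hf2 : max a 0 / 9 ^ (j + 1) < n + 1 := Nat.lt_floor_add_one _
    have hf1' : (9:ℝ) ^ (j + 1) * n ≤ max a 0 := by
      rw [le_div_iff₀ hp] at hf1; linarith
    have hf2' : max a 0 < (9:ℝ) ^ (j + 1) * (n + 1) := by
      rw [div_lt_iff₀ hp] at hf2; linarith
    have hsub : E ∩ Icc a b ⊆ E ∩ Ico ((9 : ℝ) ^ (j + 1) * n) (9 ^ (j + 1) * (n + 2)) := by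
      rintro x ⟨hx, hxa, hxb⟩
      refine ⟨hx, hf1'.trans (max_le hxa hx.1), ?_⟩
      have : a ≤ max a 0 := le_max_left _ _
      nlinarith
    refine (measure_mono hsub).trans ((E_block2_le (j + 1) n).trans ?_)
    have h3 : (3:ℝ) ^ j ≤ Real.sqrt (b - a) := by
      apply Real.le_sqrt_of_sq_le
      rw [← pow_mul, mul_comm, pow_mul]
      norm_num
      exact hj1
    have h4 : (2 * 3 ^ (j + 1) : ℝ≥0∞) = ENNReal.ofReal (6 * 3 ^ j) := by
      rw [ENNReal.ofReal_mul (by norm_num), ENNReal.ofReal_pow (by norm_num)]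
      norm_num
      ring
    rw [h4]
    apply ENNReal.ofReal_le_ofReal
    linarith

end Pool.Agent.H796R2.TW
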