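import Mathlib
import Pool.Agent.H796R2.TW.A

set_option autoImplicit false
open MeasureTheory Set
open scoped ENNReal NNReal

namespace Pool.Agent.H796R2.TW

theorem integral_tail (s h : ℝ) (hs : 1 < s) (hh : 0 < h) :
    ∫ t in Ioi (0:ℝ), (h + t) ^ (-s) = h ^ (1 - s) / (s - 1) := by
  have h1 := integral_Ioi_rpow_of_lt (a := -s) (by linarith) hh
  have h2 : ∫ t in Ioi (0:ℝ), (h + t) ^ (-s) = ∫ t in Ioi h, t ^ (-s) := by
    have h3 := (measurePreserving_add_left (volume : Measure ℝ) h).setIntegral_preimage_emb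
      (measurableEmbedding_addLeft h) (fun t : ℝ => t ^ (-s)) (Ioi h)
    rw [← h3]
    congr 2
    ext t
    simp
  rw [h2, h1]
  have e : -s + 1 = -(s - 1) := by ring
  rw [e, div_neg, neg_div, neg_neg]
  congr 2
  ring

theorem lint_tail (s h : ℝ) (hs : 1 < s) (hh : 0 < h) :
    ∫⁻ t : ℝ, ENNReal.ofReal ((h + |t|) ^ (-s)) = ENNReal.ofReal (2 * (h ^ (1 - s) / (s - 1))) := by
  have h1 : ∫ t : ℝ, (h + |t|) ^ (-s) = 2 * (h ^ (1 - s) / (s - 1)) := by
    rw [integral_comp_abs (f := fun t : ℝ => (h + t) ^ (-s)), integral_tail s h hs hh]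
  have hpos : 0 < 2 * (h ^ (1 - s) / (s - 1)) := by
    have : 0 < s - 1 := by linarith
    positivity
  have h2 : Integrable (fun t : ℝ => (h + |t|) ^ (-s)) := by
    by_contra hc
    rw [integral_undef hc] at h1
    linarith
  rw [← ofReal_integral_eq_lintegral_ofReal h2, h1]
  exact Filter.Eventually.of_forall fun t => by positivity

/-- The weight `U`. -/
noncomputable def U (x : ℝ) : ℝ := Real.sqrt (Metric.infDist x E)

theorem zero_mem_E : (0 : ℝ) ∈ E := ⟨le_rfl, by simpa using D_zero⟩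

theorem U_nonneg (x : ℝ) : 0 ≤ U x := Real.sqrt_nonneg _

theorem U_cont : Continuous U := (Metric.continuous_infDist_pt E).sqrt

theorem U_zero {x : ℝ} (hx : x ∈ E) : U x = 0 := by
  unfold U; rw [Metric.infDist_zero_of_mem hx, Real.sqrt_zero]

theorem U_le (x : ℝ) : U x ≤ Real.sqrt |x| := by
  unfold U
  apply Real.sqrt_le_sqrt
  have := Metric.infDist_le_dist_of_mem (x := x) zero_mem_E
  simpa [Real.dist_eq] using this

theorem U_holder (x y : ℝ) : U x ≤ U y + Real.sqrt |x - y| := by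
  unfold U
  have h1 : Metric.infDist x E ≤ Metric.infDist y E + dist x y := Metric.infDist_le_infDist_add_dist
  rw [Real.dist_eq] at h1
  have h2 : Real.sqrt (Metric.infDist x E) ≤ Real.sqrt (Metric.infDist y E + |x - y|) :=
    Real.sqrt_le_sqrt h1
  refine h2.trans ?_
  rw [Real.sqrt_le_left (by positivity)]
  have h3 := Real.sq_sqrt (Metric.infDist_nonneg (x := y) (s := E))
  have h4 := Real.sq_sqrt (abs_nonneg (x - y))
  nlinarith [Real.sqrt_nonneg (Metric.infDist y E), Real.sqrt_nonneg |x - y|,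
    mul_nonneg (Real.sqrt_nonneg (Metric.infDist y E)) (Real.sqrt_nonneg |x - y|)]

theorem kernel_bound (a b x y : ℝ) (hab : a < b) (hy : y ∈ Icc a b) :
    U x / ((b - a) ^ (2:ℝ) + |x - (a + b) / 2| ^ (2:ℝ)) ≤
      2 * U y * ((b - a) + |x - (a + b) / 2|) ^ (-2 : ℝ) +
      2 * ((b - a) + |x - (a + b) / 2|) ^ (-(3/2) : ℝ) := by
  set h := b - a with hh
  set t := |x - (a + b) / 2| with ht
  have hpos : 0 < h := by simp only [hh]; linarith
  have ht0 : 0 ≤ t := abs_nonneg _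
  have hs : 0 < h + t := by linarith
  have h1 : |x - y| ≤ h + t := by
    have : |x - y| ≤ |x - (a + b) / 2| + |(a + b) / 2 - y| := abs_sub_le _ _ _
    have h2 : |(a + b) / 2 - y| ≤ h := by
      rw [abs_le]; constructor <;> simp only [hh] <;> linarith [hy.1, hy.2]
    linarith
  have h2 : U x ≤ U y + Real.sqrt (h + t) := by
    refine (U_holder x y).trans ?_
    have := Real.sqrt_le_sqrt h1
    linarith
  have h3 : (h + t) ^ 2 / 2 ≤ h ^ (2:ℝ) + t ^ (2:ℝ) := by
    rw [Real.rpow_two, Real.rpow_two]; nlinarith [sq_nonneg (h - t)]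
  have h4 : 0 < h ^ (2:ℝ) + t ^ (2:ℝ) := by
    rw [Real.rpow_two, Real.rpow_two]; positivity
  rw [div_le_iff₀ h4]
  have e1 : (h + t) ^ (-2 : ℝ) * (h + t) ^ 2 = 1 := by
    rw [Real.rpow_neg hs.le, Real.rpow_two]
    exact inv_mul_cancel₀ (by positivity)
  have e2 : (h + t) ^ (-(3/2) : ℝ) * (h + t) ^ 2 = Real.sqrt (h + t) := by
    rw [← Real.rpow_two, ← Real.rpow_add hs, Real.sqrt_eq_rpow]
    norm_num
  have hA : 0 ≤ 2 * U y * (h + t) ^ (-2 : ℝ) + 2 * (h + t) ^ (-(3/2) : ℝ) := by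
    have := U_nonneg y
    positivity
  calc U x ≤ U y + Real.sqrt (h + t) := h2
    _ = (2 * U y * (h + t) ^ (-2 : ℝ) + 2 * (h + t) ^ (-(3/2) : ℝ)) * ((h + t) ^ 2 / 2) := by
        have : (2 * U y * (h + t) ^ (-2 : ℝ) + 2 * (h + t) ^ (-(3/2) : ℝ)) * ((h + t) ^ 2 / 2) =
          U y * ((h + t) ^ (-2 : ℝ) * (h + t) ^ 2) + (h + t) ^ (-(3/2) : ℝ) * (h + t) ^ 2 := by ring
        rw [this, e1, e2, mul_one]
    _ ≤ _ := mul_le_mul_of_nonneg_left h3 hA

theorem J_le (a b y : ℝ) (hab : a < b) (hy : y ∈ Icc a b) :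
    ∫⁻ x, ENNReal.ofReal (U x) / ENNReal.ofReal ((b - a) ^ (2:ℝ) + |x - (a + b) / 2| ^ (2:ℝ)) ≤
      ENNReal.ofReal (4 * U y / (b - a) + 8 / Real.sqrt (b - a)) := by
  have hpos : 0 < b - a := by linarith
  have hUy := U_nonneg y
  have h1 : ∀ x : ℝ, ENNReal.ofReal (U x) /
      ENNReal.ofReal ((b - a) ^ (2:ℝ) + |x - (a + b) / 2| ^ (2:ℝ)) ≤
      ENNReal.ofReal (2 * U y) * ENNReal.ofReal (((b - a) + |x - (a + b) / 2|) ^ (-2 : ℝ)) +
      ENNReal.ofReal 2 * ENNReal.ofReal (((b - a) + |x - (a + b) / 2|) ^ (-(3/2) : ℝ)) := by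
    intro x
    have h4 : 0 < (b - a) ^ (2:ℝ) + |x - (a + b) / 2| ^ (2:ℝ) := by positivity
    rw [← ENNReal.ofReal_div_of_pos h4, ← ENNReal.ofReal_mul (by positivity),
      ← ENNReal.ofReal_mul (by positivity), ← ENNReal.ofReal_add (by positivity) (by positivity)]
    exact ENNReal.ofReal_le_ofReal (kernel_bound a b x y hab hy)
  refine (lintegral_mono h1).trans ?_
  have hm : ∀ s : ℝ, Measurable fun x : ℝ =>
      ENNReal.ofReal (((b - a) + |x - (a + b) / 2|) ^ s) := by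
    intro s; fun_prop
  rw [lintegral_add_left ((hm _).const_mul _), lintegral_const_mul _ (hm _),
    lintegral_const_mul _ (hm _)]
  have hsh : ∀ s : ℝ, ∫⁻ x : ℝ, ENNReal.ofReal (((b - a) + |x - (a + b) / 2|) ^ s) =
      ∫⁻ x : ℝ, ENNReal.ofReal (((b - a) + |x|) ^ s) := fun s =>
    lintegral_sub_right_eq_self (fun x : ℝ => ENNReal.ofReal (((b - a) + |x|) ^ s)) ((a + b) / 2)
  rw [hsh, hsh, lint_tail 2 (b - a) (by norm_num) hpos, lint_tail (3/2) (b - a) (by norm_num) hpos,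
    ← ENNReal.ofReal_mul (by positivity), ← ENNReal.ofReal_mul (by positivity),
    ← ENNReal.ofReal_add (by positivity) (by positivity)]
  apply ENNReal.ofReal_le_ofReal
  have e1 : (b - a) ^ ((1:ℝ) - 2) = 1 / (b - a) := by
    rw [show (1:ℝ) - 2 = -1 by norm_num, Real.rpow_neg_one, one_div]
  have e2 : (b - a) ^ ((1:ℝ) - 3/2) = 1 / Real.sqrt (b - a) := by
    rw [show (1:ℝ) - 3/2 = -(1/2) by norm_num, Real.rpow_neg hpos.le, ← Real.sqrt_eq_rpow, one_div]
  rw [e1, e2]
  apply le_of_eq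
  ring

open Classical in
/-- The weight `V`. -/
noncomputable def V (x : ℝ) : ℝ := if x ∈ E then 1 else 1 + x ^ 2

theorem V_pos (x : ℝ) : 0 < V x := by
  unfold V; split_ifs <;> positivity

theorem V_meas : Measurable V := by
  unfold V
  exact Measurable.ite E_meas measurable_const (by fun_prop)

theorem V_inv_mul_U (x : ℝ) : (V x)⁻¹ * U x ≤ 1 := by
  unfold V
  split_ifs with h
  · rw [U_zero h]; simp
  · rw [inv_mul_le_iff₀ (by positivity), mul_one]
    refine (U_le x).trans ?_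
    rw [Real.sqrt_le_left (by positivity)]
    have := abs_nonneg x
    have h2 := sq_abs x
    nlinarith [sq_nonneg (|x| - 1), sq_nonneg (x^2)]

theorem V_inv_le (x : ℝ) : (V x)⁻¹ ≤ E.indicator (fun _ => (1:ℝ)) x + (1 + x ^ 2)⁻¹ := by
  unfold V
  have h0 : 0 < (1 + x ^ 2)⁻¹ := by positivity
  split_ifs with h
  · rw [indicator_of_mem h]; linarith [inv_one (G := ℝ)]
  · rw [indicator_of_notMem h]; linarith

theorem rho_le (a b : ℝ) (hab : a < b) :
    ∫⁻ x in Icc a b, ENNReal.ofReal ((1 + x ^ 2)⁻¹) ≤ ENNReal.ofReal (4 * Real.sqrt (b - a)) := by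
  have hpos : 0 < b - a := by linarith
  rcases le_or_gt (b - a) 1 with h1 | h1
  · have h2 : ∫⁻ x in Icc a b, ENNReal.ofReal ((1 + x ^ 2)⁻¹) ≤ ∫⁻ x in Icc a b, 1 := by
      apply lintegral_mono
      intro x
      show ENNReal.ofReal ((1 + x ^ 2)⁻¹) ≤ 1
      rw [← ENNReal.ofReal_one]
      apply ENNReal.ofReal_le_ofReal
      apply inv_le_one_of_one_le₀
      nlinarith [sq_nonneg x]
    refine h2.trans ?_
    rw [setLIntegral_const, one_mul, Real.volume_Icc]
    apply ENNReal.ofReal_le_ofReal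
    have := Real.sqrt_nonneg (b - a)
    have h4 := Real.sq_sqrt hpos.le
    have h5 : Real.sqrt (b - a) ≤ 1 := by
      rw [Real.sqrt_le_one]; exact h1
    nlinarith
  · have h2 : ∫⁻ x in Icc a b, ENNReal.ofReal ((1 + x ^ 2)⁻¹) ≤ ENNReal.ofReal Real.pi := by
      refine (setLIntegral_le_lintegral _ _).trans ?_
      rw [← ofReal_integral_eq_lintegral_ofReal integrable_inv_one_add_sq,
        integral_univ_inv_one_add_sq]
      exact Filter.Eventually.of_forall fun t => by positivity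
    refine h2.trans (ENNReal.ofReal_le_ofReal ?_)
    have h3 : 1 ≤ Real.sqrt (b - a) := by
      rw [Real.one_le_sqrt]; exact h1.le
    have := Real.pi_le_four
    linarith

theorem Vinv_le (a b : ℝ) (hab : a < b) :
    ∫⁻ x in Icc a b, ENNReal.ofReal ((V x)⁻¹) ≤ ENNReal.ofReal (10 * Real.sqrt (b - a)) := by
  have h1 : ∫⁻ x in Icc a b, ENNReal.ofReal ((V x)⁻¹) ≤
      ∫⁻ x in Icc a b, (E.indicator (fun _ => (1:ℝ≥0∞)) x + ENNReal.ofReal ((1 + x ^ 2)⁻¹)) := by
    apply lintegral_mono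
    intro x
    show ENNReal.ofReal ((V x)⁻¹) ≤ _
    refine (ENNReal.ofReal_le_ofReal (V_inv_le x)).trans ?_
    rw [ENNReal.ofReal_add (indicator_nonneg (fun _ _ => zero_le_one) x) (by positivity)]
    by_cases hx : x ∈ E
    · simp [hx]
    · simp [hx]
  refine h1.trans ?_
  rw [lintegral_add_left (measurable_const.indicator E_meas), lintegral_indicator E_meas,
    Measure.restrict_restrict E_meas, setLIntegral_const, one_mul]
  refine (add_le_add (E_Icc_le a b hab) (rho_le a b hab)).trans ?_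
  rw [← ENNReal.ofReal_add (by positivity) (by positivity)]
  apply ENNReal.ofReal_le_ofReal
  linarith

/-- Condition (P). -/
theorem condP (a b : ℝ) (hab : a < b) :
    (∫⁻ x, ENNReal.ofReal (U x) / ENNReal.ofReal ((b - a) ^ (2:ℝ) + |x - (a + b) / 2| ^ (2:ℝ))) *
      (∫⁻ x in Icc a b, ENNReal.ofReal ((V x)⁻¹)) ≤ ENNReal.ofReal 84 := by
  have hpos : 0 < b - a := by linarith
  have hsq : 0 < Real.sqrt (b - a) := Real.sqrt_pos.2 hpos
  set J := ∫⁻ x, ENNReal.ofReal (U x) /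
    ENNReal.ofReal ((b - a) ^ (2:ℝ) + |x - (a + b) / 2| ^ (2:ℝ)) with hJ
  have hVm : Measurable fun x => ENNReal.ofReal ((V x)⁻¹) := (V_meas.inv).ennreal_ofReal
  rw [← lintegral_const_mul _ hVm]
  have h1 : ∫⁻ y in Icc a b, J * ENNReal.ofReal ((V y)⁻¹) ≤
      ∫⁻ y in Icc a b, (ENNReal.ofReal (4 / (b - a)) +
        ENNReal.ofReal (8 / Real.sqrt (b - a)) * ENNReal.ofReal ((V y)⁻¹)) := by
    apply setLIntegral_mono' measurableSet_Icc
    intro y hy
    have hV := V_pos y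
    have hUy := U_nonneg y
    refine (mul_le_mul_left (J_le a b y hab hy) _).trans ?_
    rw [← ENNReal.ofReal_mul (by positivity), ← ENNReal.ofReal_mul (by positivity),
      ← ENNReal.ofReal_add (by positivity) (by positivity)]
    apply ENNReal.ofReal_le_ofReal
    have h2 := V_inv_mul_U y
    have h3 : 4 * U y / (b - a) * (V y)⁻¹ = 4 / (b - a) * ((V y)⁻¹ * U y) := by ring
    have h4 : 4 / (b - a) * ((V y)⁻¹ * U y) ≤ 4 / (b - a) * 1 :=
      mul_le_mul_of_nonneg_left h2 (by positivity)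
    rw [add_mul, h3]
    linarith
  refine h1.trans ?_
  rw [lintegral_add_left measurable_const, setLIntegral_const, lintegral_const_mul _ hVm,
    Real.volume_Icc, ← ENNReal.ofReal_mul (by positivity)]
  refine (add_le_add le_rfl (mul_le_mul_right (Vinv_le a b hab) _)).trans ?_
  rw [← ENNReal.ofReal_mul (by positivity), ← ENNReal.ofReal_add (by positivity) (by positivity)]
  apply ENNReal.ofReal_le_ofReal
  have e1 : 4 / (b - a) * (b - a) = 4 := by field_simp
  have e2 : 8 / Real.sqrt (b - a) * (10 * Real.sqrt (b - a)) = 80 := by field_simp; norm_num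
  rw [e1, e2]
  norm_num

end Pool.Agent.H796R2.TW
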