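import Mathlib
import Pool.Agent.H796R2.TW.B

set_option autoImplicit false
open MeasureTheory Set
open scoped ENNReal NNReal

namespace Pool.Agent.H796R2.TW

/-- The gap regions of generation `i`, restricted to `[0, 9^m)`. -/
def G (m i : ℕ) : Set ℝ :=
  ⋃ n ∈ (Finset.Ico 0 (9 ^ (m - 1 - i))).filter D,
    Ico ((9:ℝ) ^ i * (9 * n + 2)) (9 ^ i * (9 * n + 3))

theorem G_meas (m i : ℕ) : MeasurableSet (G m i) :=
  Finset.measurableSet_biUnion _ fun _ _ => measurableSet_Ico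

theorem G_vol (m i : ℕ) : volume (G m i) = ENNReal.ofReal (3 ^ (m - 1 - i) * 9 ^ i) := by
  unfold G
  rw [measure_biUnion_finset]
  · have h1 : ∀ n : ℕ, volume (Ico ((9:ℝ) ^ i * (9 * n + 2)) (9 ^ i * (9 * n + 3))) =
        ENNReal.ofReal (9 ^ i) := by
      intro n
      rw [Real.volume_Ico]
      congr 1
      ring
    simp only [h1]
    rw [Finset.sum_const, nsmul_eq_mul]
    have h2 := card_block (m - 1 - i) 0 1 (by norm_num)
    have h3 : ((Finset.Ico 0 1).filter D).card = 1 := by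
      have : (Finset.Ico 0 1).filter D = {0} := by
        ext x
        simp only [Finset.mem_filter, Finset.mem_Ico, Finset.mem_singleton]
        constructor
        · rintro ⟨h, _⟩; omega
        · rintro rfl; exact ⟨by omega, D_zero⟩
      rw [this]; simp
    rw [h3, mul_zero, mul_one, mul_one] at h2
    rw [h2, ENNReal.ofReal_mul (by positivity)]
    congr 1
    rw [ENNReal.ofReal_pow (by norm_num)]
    norm_num
  · intro p _ q _ hpq
    have h : Disjoint (Ico ((9:ℝ) ^ i * (9 * p + 2)) (9 ^ i * (9 * p + 3)))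
        (Ico ((9:ℝ) ^ i * (9 * q + 2)) (9 ^ i * (9 * q + 3))) := by
      rw [Set.disjoint_left]
      intro x hx hx'
      have h9 : (0:ℝ) < 9 ^ i := by positivity
      rcases lt_or_gt_of_ne hpq with h | h
      · have h1 : (p : ℝ) + 1 ≤ q := by exact_mod_cast h
        have := hx.2.trans_le' hx'.1
        nlinarith
      · have h1 : (q : ℝ) + 1 ≤ p := by exact_mod_cast h
        have := hx'.2.trans_le' hx.1
        nlinarith
    exact h
  · intro n _; exact measurableSet_Ico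

theorem floor_of_mem {i n c : ℕ} {x : ℝ} (h1 : (9:ℝ) ^ i * (9 * n + c) ≤ x)
    (h2 : x < 9 ^ i * (9 * n + c + 1)) : ⌊x / 9 ^ i⌋₊ = 9 * n + c := by
  have h9 : (0:ℝ) < 9 ^ i := by positivity
  have h0 : 0 ≤ x / 9 ^ i := by
    apply div_nonneg _ h9.le
    refine le_trans ?_ h1
    positivity
  rw [Nat.floor_eq_iff h0]
  push_cast
  constructor
  · rw [le_div_iff₀ h9]; linarith
  · rw [div_lt_iff₀ h9]; linarith

theorem D_of_E {x : ℝ} (hx : x ∈ E) (i : ℕ) : D ⌊x / 9 ^ i⌋₊ := by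
  have h := D_div _ i hx.2
  have e : ⌊x / 9 ^ i⌋₊ = ⌊x⌋₊ / 9 ^ i := by
    have := Nat.floor_div_natCast x (9 ^ i)
    push_cast at this
    exact this
  rw [e]; exact h

theorem G_digit {m i : ℕ} {x : ℝ} (hx : x ∈ G m i) :
    ∃ n : ℕ, n < 9 ^ (m - 1 - i) ∧ D n ∧ (9:ℝ) ^ i * (9 * n + 2) ≤ x ∧ x < 9 ^ i * (9 * n + 3) ∧
      ⌊x / 9 ^ i⌋₊ = 9 * n + 2 := by
  unfold G at hx
  simp only [mem_iUnion, Finset.mem_filter, Finset.mem_Ico, exists_prop] at hx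
  obtain ⟨n, ⟨⟨_, h1⟩, h2⟩, h3, h4⟩ := hx
  refine ⟨n, h1, h2, h3, h4, ?_⟩
  apply floor_of_mem (c := 2)
  · exact_mod_cast h3
  · push_cast; linarith

theorem G_disj (m : ℕ) {i j : ℕ} (hij : i < j) : Disjoint (G m i) (G m j) := by
  rw [Set.disjoint_left]
  intro x hx hx'
  obtain ⟨n, _, hn, _, _, h1⟩ := G_digit hx
  obtain ⟨q, _, hq, _, _, h2⟩ := G_digit hx'
  obtain ⟨k, rfl⟩ := Nat.exists_eq_add_of_lt hij
  have e : ⌊x / 9 ^ (i + k + 1)⌋₊ = n / 9 ^ k := by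
    have h3 : x / 9 ^ (i + k + 1) = (x / 9 ^ i) / ((9 ^ (k + 1) : ℕ) : ℝ) := by
      rw [div_div]
      congr 1
      push_cast
      ring
    rw [h3, Nat.floor_div_natCast, h1, pow_succ', ← Nat.div_div_eq_div_mul]
    congr 1
    omega
  rw [h2] at e
  have h4 := hn k
  rw [← e] at h4
  omega

theorem U_ge {m i : ℕ} {x : ℝ} (hx : x ∈ G m i) : (3:ℝ) ^ i ≤ U x := by
  obtain ⟨n, _, hn, h1, h2, h3⟩ := G_digit hx
  unfold U
  apply Real.le_sqrt_of_sq_le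
  rw [← pow_mul, mul_comm, pow_mul]
  norm_num
  rw [Metric.le_infDist ⟨0, zero_mem_E⟩]
  intro y hy
  by_contra hc
  push Not at hc
  rw [Real.dist_eq, abs_lt] at hc
  have hD := D_of_E hy i
  have h9 : (0:ℝ) < 9 ^ i := by positivity
  have hy0 : 0 ≤ y / 9 ^ i := div_nonneg hy.1 h9.le
  have hlo : 9 * n + 1 ≤ ⌊y / 9 ^ i⌋₊ := by
    apply Nat.le_floor
    push_cast
    rw [le_div_iff₀ h9]
    nlinarith
  have hhi : ⌊y / 9 ^ i⌋₊ < 9 * n + 4 := by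
    rw [Nat.floor_lt hy0]
    push_cast
    rw [div_lt_iff₀ h9]
    nlinarith
  have := hD 0
  simp only [pow_zero, Nat.div_one] at this
  have h4 : ⌊y / 9 ^ i⌋₊ = 9 * n + 1 ∨ ⌊y / 9 ^ i⌋₊ = 9 * n + 2 ∨ ⌊y / 9 ^ i⌋₊ = 9 * n + 3 := by
    omega
  rcases h4 with h4 | h4 | h4
  · have e : (9 * n + 1) % 9 = 1 := by omega
    rw [h4, e] at this; omega
  · have e : (9 * n + 2) % 9 = 2 := by omega
    rw [h4, e] at this; omega
  · have e : (9 * n + 3) % 9 = 3 := by omega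
    rw [h4, e] at this; omega

/-- test function -/
noncomputable def f (m : ℕ) : ℝ → ℝ := (E ∩ Ico (0:ℝ) (9 ^ m)).indicator (fun _ => 1)

theorem f_meas (m : ℕ) : Measurable (f m) :=
  measurable_const.indicator (E_meas.inter measurableSet_Ico)

theorem f_int (m : ℕ) : ∫⁻ x, ‖f m x‖ₑ ^ (2:ℝ) * ENNReal.ofReal (V x) = ENNReal.ofReal (3 ^ m) := by
  have h1 : ∀ x, ‖f m x‖ₑ ^ (2:ℝ) * ENNReal.ofReal (V x) =
      (E ∩ Ico (0:ℝ) (9 ^ m)).indicator (fun _ => (1:ℝ≥0∞)) x := by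
    intro x
    unfold f
    by_cases hx : x ∈ E ∩ Ico (0:ℝ) (9 ^ m)
    · rw [indicator_of_mem hx, indicator_of_mem hx]
      unfold V
      rw [if_pos hx.1]
      simp
    · rw [indicator_of_notMem hx, indicator_of_notMem hx]
      simp
  simp only [h1]
  rw [lintegral_indicator (E_meas.inter measurableSet_Ico), setLIntegral_const, one_mul]
  have h := E_block m 0 D_zero
  simp only [Nat.cast_zero, mul_zero, zero_add, mul_one] at h
  rw [h, ENNReal.ofReal_pow (by norm_num)]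
  norm_num

theorem maxf_ge {m i : ℕ} (him : i < m) {x : ℝ} (hx : x ∈ G m i) :
    ENNReal.ofReal (3 ^ (i + 1) / 9 ^ (i + 1)) ≤
      (⨆ a : ℝ, ⨆ b : ℝ, ⨆ (_ : a < x ∧ x < b),
            ENNReal.ofReal (b - a)⁻¹ * ∫⁻ t in Set.Ioo a b, ‖f m t‖ₑ) := by
  obtain ⟨n, hn, hD, h1, h2, _⟩ := G_digit hx
  have h9 : (0:ℝ) < 9 ^ i := by positivity
  have hax : (9:ℝ) ^ (i + 1) * n < x := by
    refine lt_of_lt_of_le ?_ h1
    rw [pow_succ]; nlinarith
  have hxb : x < (9:ℝ) ^ (i + 1) * (n + 1) := by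
    refine lt_of_lt_of_le h2 ?_
    rw [pow_succ]; nlinarith
  refine le_iSup_of_le ((9:ℝ) ^ (i + 1) * n) (le_iSup_of_le ((9:ℝ) ^ (i + 1) * (n + 1))
    (le_iSup_of_le ⟨hax, hxb⟩ ?_))
  have hsub : Ioo ((9:ℝ) ^ (i + 1) * n) (9 ^ (i + 1) * (n + 1)) ⊆ Ico 0 (9 ^ m) := by
    intro t ht
    refine ⟨le_trans (by positivity) ht.1.le, lt_of_lt_of_le ht.2 ?_⟩
    have h3 : (n:ℝ) + 1 ≤ 9 ^ (m - 1 - i) := by exact_mod_cast hn
    calc (9:ℝ) ^ (i + 1) * (n + 1) ≤ 9 ^ (i + 1) * 9 ^ (m - 1 - i) := by gcongr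
      _ = 9 ^ m := by rw [← pow_add]; congr 1; omega
  have h4 : ∫⁻ t in Ioo ((9:ℝ) ^ (i + 1) * n) (9 ^ (i + 1) * (n + 1)), ‖f m t‖ₑ = 3 ^ (i + 1) := by
    have h5 : ∀ t, ‖f m t‖ₑ = (E ∩ Ico (0:ℝ) (9 ^ m)).indicator (fun _ => (1:ℝ≥0∞)) t := by
      intro t
      unfold f
      by_cases ht : t ∈ E ∩ Ico (0:ℝ) (9 ^ m)
      · rw [indicator_of_mem ht, indicator_of_mem ht]; simp
      · rw [indicator_of_notMem ht, indicator_of_notMem ht]; simp
    simp only [h5]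
    rw [lintegral_indicator (E_meas.inter measurableSet_Ico),
      Measure.restrict_restrict (E_meas.inter measurableSet_Ico), setLIntegral_const, one_mul,
      ← E_block (i + 1) n hD]
    have h6 : E ∩ Ico (0:ℝ) (9 ^ m) ∩ Ioo ((9:ℝ) ^ (i + 1) * n) (9 ^ (i + 1) * (n + 1)) =
        E ∩ Ioo ((9:ℝ) ^ (i + 1) * n) (9 ^ (i + 1) * (n + 1)) := by
      ext t
      constructor
      · rintro ⟨⟨ha, _⟩, hb⟩; exact ⟨ha, hb⟩
      · rintro ⟨ha, hb⟩; exact ⟨⟨ha, hsub hb⟩, hb⟩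
    rw [h6]
    apply measure_congr
    exact (Filter.EventuallyEq.refl _ _).inter Ioo_ae_eq_Ico
  rw [h4]
  have e : (9:ℝ) ^ (i + 1) * (n + 1) - 9 ^ (i + 1) * n = 9 ^ (i + 1) := by ring
  rw [e]
  have h7 : (3:ℝ≥0∞) ^ (i + 1) = ENNReal.ofReal (3 ^ (i + 1)) := by
    rw [ENNReal.ofReal_pow (by norm_num)]; norm_num
  rw [h7, ← ENNReal.ofReal_mul (by positivity)]
  apply ENNReal.ofReal_le_ofReal
  rw [div_eq_inv_mul]

theorem lower (m : ℕ) (hm : 0 < m) :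
    ENNReal.ofReal (m * (3 ^ (m - 1) / 9)) ≤
      ∫⁻ x, (⨆ a : ℝ, ⨆ b : ℝ, ⨆ (_ : a < x ∧ x < b),
            ENNReal.ofReal (b - a)⁻¹ * ∫⁻ t in Set.Ioo a b, ‖f m t‖ₑ) ^ (2:ℝ) *
              ENNReal.ofReal (U x) := by
  set F : ℝ → ℝ≥0∞ := fun x => (⨆ a : ℝ, ⨆ b : ℝ, ⨆ (_ : a < x ∧ x < b),
            ENNReal.ofReal (b - a)⁻¹ * ∫⁻ t in Set.Ioo a b, ‖f m t‖ₑ) ^ (2:ℝ) *
              ENNReal.ofReal (U x) with hF
  have h1 : ∫⁻ x in ⋃ i ∈ Finset.range m, G m i, F x = ∑ i ∈ Finset.range m, ∫⁻ x in G m i, F x := by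
    apply lintegral_biUnion_finset
    · intro i _ j _ hij
      rcases lt_or_gt_of_ne hij with h | h
      · exact G_disj m h
      · exact (G_disj m h).symm
    · intro i _; exact G_meas m i
  have h2 : ∀ i ∈ Finset.range m, ENNReal.ofReal (3 ^ (m - 1) / 9) ≤ ∫⁻ x in G m i, F x := by
    intro i hi
    rw [Finset.mem_range] at hi
    have h3 : ∫⁻ x in G m i, ENNReal.ofReal ((3 ^ (i + 1) / 9 ^ (i + 1)) ^ 2 * 3 ^ i) ≤
        ∫⁻ x in G m i, F x := by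
      apply setLIntegral_mono' (G_meas m i)
      intro x hx
      rw [ENNReal.ofReal_mul (by positivity), hF]
      refine mul_le_mul' ?_ (ENNReal.ofReal_le_ofReal (U_ge hx))
      have h4 := ENNReal.rpow_le_rpow (maxf_ge hi hx) (by norm_num : (0:ℝ) ≤ 2)
      refine le_trans (le_of_eq ?_) h4
      rw [ENNReal.ofReal_rpow_of_nonneg (by positivity) (by norm_num), Real.rpow_two]
    refine le_trans (le_of_eq ?_) h3
    rw [setLIntegral_const, G_vol, ← ENNReal.ofReal_mul (by positivity)]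
    congr 1
    have e1 : (3:ℝ) ^ (m - 1) = 3 ^ (m - 1 - i) * 3 ^ i := by
      rw [← pow_add]; congr 1; omega
    rw [e1]
    have e2 : (9:ℝ) ^ (i + 1) = 3 ^ (i + 1) * 3 ^ (i + 1) := by
      rw [← mul_pow]; norm_num
    have e3 : (9:ℝ) ^ i = 3 ^ i * 3 ^ i := by
      rw [← mul_pow]; norm_num
    have h3i : (0:ℝ) < 3 ^ i := by positivity
    rw [e2, e3, pow_succ]
    field_simp
    ring
  calc ENNReal.ofReal (m * (3 ^ (m - 1) / 9))
      = ∑ i ∈ Finset.range m, ENNReal.ofReal (3 ^ (m - 1) / 9) := by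
        rw [Finset.sum_const, nsmul_eq_mul, Finset.card_range, ENNReal.ofReal_mul (by positivity),
          ENNReal.ofReal_natCast]
    _ ≤ ∑ i ∈ Finset.range m, ∫⁻ x in G m i, F x := Finset.sum_le_sum h2
    _ = ∫⁻ x in ⋃ i ∈ Finset.range m, G m i, F x := h1.symm
    _ ≤ ∫⁻ x, F x := setLIntegral_le_lintegral _ _

theorem no_bound (C : ℝ≥0) : ∃ m : ℕ, ¬ (∫⁻ x, (⨆ a : ℝ, ⨆ b : ℝ, ⨆ (_ : a < x ∧ x < b),
            ENNReal.ofReal (b - a)⁻¹ * ∫⁻ t in Set.Ioo a b, ‖f m t‖ₑ) ^ (2:ℝ) *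
              ENNReal.ofReal (U x) ≤ (C : ℝ≥0∞) * ∫⁻ x, ‖f m x‖ₑ ^ (2:ℝ) * ENNReal.ofReal (V x)) := by
  obtain ⟨m, hm⟩ := exists_nat_gt (27 * (C:ℝ))
  have hm0 : 0 < m := by
    have : (0:ℝ) < m := lt_of_le_of_lt (by positivity) hm
    exact_mod_cast this
  refine ⟨m, fun h => ?_⟩
  have h1 := (lower m hm0).trans h
  rw [f_int, ← ENNReal.ofReal_coe_nnreal, ← ENNReal.ofReal_mul (by positivity),
    ENNReal.ofReal_le_ofReal_iff (by positivity)] at h1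
  obtain ⟨k, rfl⟩ := Nat.exists_eq_succ_of_ne_zero hm0.ne'
  have e : k.succ - 1 = k := rfl
  rw [e, pow_succ] at h1
  have h3 : (0:ℝ) < 3 ^ k := by positivity
  have h4 : ((k.succ : ℕ) : ℝ) / 9 ≤ C * 3 := by
    by_contra hc
    push Not at hc
    nlinarith
  linarith

end Pool.Agent.H796R2.TW
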